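import Pool.Agent.X189.BS.Stm

/-! Auxiliary facts for `S_E2` (MP_4f027a_co): the trace lemma, invariance of `Val` under `Eqv`
and under a triangle flip. -/

namespace Pool.Agent.X274.BS

open Pool.Agent.X189.BS

variable {n : ℕ}

theorem loc_append (x : Fin (n + 1)) (A B : List (Fin (n + 1) × Fin (n + 1))) :
    loc x (A ++ B) = loc x A ++ loc x B := by
  simp [loc]

theorem loc_cons_of {x : Fin (n + 1)} {e : Fin (n + 1) × Fin (n + 1)}
    (h : e.1 = x ∨ e.2 = x) (B : List (Fin (n + 1) × Fin (n + 1))) :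
    loc x (e :: B) = e :: loc x B := by
  simp [loc, h]

theorem loc_cons_not {x : Fin (n + 1)} {e : Fin (n + 1) × Fin (n + 1)}
    (h : ¬ (e.1 = x ∨ e.2 = x)) (B : List (Fin (n + 1) × Fin (n + 1))) :
    loc x (e :: B) = loc x B := by
  simp only [loc]
  rw [List.filter_cons_of_neg]
  simpa using h

theorem mem_loc {x : Fin (n + 1)} {e : Fin (n + 1) × Fin (n + 1)}
    {A : List (Fin (n + 1) × Fin (n + 1))} : e ∈ loc x A ↔ e ∈ A ∧ (e.1 = x ∨ e.2 = x) := by
  simp [loc]

/-- The first crossing can be moved to the front. -/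
theorem front {e : Fin (n + 1) × Fin (n + 1)} {L1 L' : List (Fin (n + 1) × Fin (n + 1))}
    (h : Eqv (e :: L1) L') :
    ∃ P S, L' = P ++ e :: S ∧ (∀ g ∈ P, ¬ (g.1 = e.1 ∨ g.2 = e.1) ∧ ¬ (g.1 = e.2 ∨ g.2 = e.2)) ∧
      Eqv L1 (P ++ S) := by
  have he1 : loc e.1 L' = e :: loc e.1 L1 := by
    rw [← h e.1]; exact loc_cons_of (Or.inl rfl) _
  have he2 : loc e.2 L' = e :: loc e.2 L1 := by
    rw [← h e.2]; exact loc_cons_of (Or.inr rfl) _
  have hmem : e ∈ L' := by
    have : e ∈ loc e.1 L' := by rw [he1]; exact List.mem_cons_self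
    exact (mem_loc.1 this).1
  obtain ⟨P, S, hPS, heP⟩ := List.eq_append_cons_of_mem hmem
  have key : ∀ x, (e.1 = x ∨ e.2 = x) → loc x P = [] := by
    intro x hx
    have h1 : loc x L' = e :: loc x L1 := by
      rw [← h x]; exact loc_cons_of hx _
    rw [hPS, loc_append, loc_cons_of hx] at h1
    rcases hP : loc x P with _ | ⟨g, T⟩
    · rfl
    · exfalso
      rw [hP, List.cons_append, List.cons.injEq] at h1
      have : g ∈ loc x P := by rw [hP]; exact List.mem_cons_self
      rw [h1.1] at this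
      exact heP (mem_loc.1 this).1
  refine ⟨P, S, hPS, ?_, ?_⟩
  · intro g hg
    constructor
    · intro hh
      have : g ∈ loc e.1 P := mem_loc.2 ⟨hg, hh⟩
      rw [key e.1 (Or.inl rfl)] at this
      exact List.not_mem_nil this
    · intro hh
      have : g ∈ loc e.2 P := mem_loc.2 ⟨hg, hh⟩
      rw [key e.2 (Or.inr rfl)] at this
      exact List.not_mem_nil this
  · intro x
    have h1 := h x
    rw [hPS, loc_append] at h1
    rw [loc_append]
    by_cases hx : e.1 = x ∨ e.2 = x
    · rw [loc_cons_of hx, loc_cons_of hx, key x hx, List.nil_append, List.cons.injEq] at h1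
      rw [key x hx, List.nil_append]
      exact h1.2
    · rw [loc_cons_not hx, loc_cons_not hx] at h1
      exact h1

theorem foldl_comm_front {β : Type*} (f : β → Fin (n + 1) × Fin (n + 1) → β)
    (e : Fin (n + 1) × Fin (n + 1)) (P : List (Fin (n + 1) × Fin (n + 1)))
    (hc : ∀ g ∈ P, ∀ X, f (f X e) g = f (f X g) e) :
    ∀ X, f (P.foldl f X) e = P.foldl f (f X e) := by
  induction P with
  | nil => intro X; rfl
  | cons g P ih =>
    intro X
    rw [List.foldl_cons, List.foldl_cons, ih (fun g' hg' => hc g' (List.mem_cons_of_mem _ hg')),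
      hc g List.mem_cons_self]

/-- Trace lemma: a fold is the same along two lists with the same local orders. -/
theorem trace {β : Type*} (f : β → Fin (n + 1) × Fin (n + 1) → β)
    (hc : ∀ X e g, ¬ (g.1 = e.1 ∨ g.2 = e.1) → ¬ (g.1 = e.2 ∨ g.2 = e.2) →
      f (f X e) g = f (f X g) e) :
    ∀ L L' : List (Fin (n + 1) × Fin (n + 1)), Eqv L L' → ∀ X, L.foldl f X = L'.foldl f X := by
  intro L
  induction L with
  | nil =>
    intro L' h X
    rcases L' with _ | ⟨e, L'⟩
    · rfl
    · exfalso
      have := h e.1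
      rw [loc_cons_of (Or.inl rfl)] at this
      simp [loc] at this
  | cons e L1 ih =>
    intro L' h X
    obtain ⟨P, S, hPS, hP, hE⟩ := front h
    rw [List.foldl_cons, ih _ hE, hPS, List.foldl_append, List.foldl_append, List.foldl_cons,
      foldl_comm_front f e P (fun g hg X => hc X e g (hP g hg).1 (hP g hg).2)]

theorem vstep_comm (q : ℤ) (X : Fin (n + 1) → ℤ) (e g : Fin (n + 1) × Fin (n + 1))
    (h1 : ¬ (g.1 = e.1 ∨ g.2 = e.1)) (h2 : ¬ (g.1 = e.2 ∨ g.2 = e.2)) :
    vstep q (vstep q X e) g = vstep q (vstep q X g) e := by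
  push Not at h1 h2
  funext z
  simp only [vstep]
  have a1 : ¬ (g.1 = e.1 ∨ g.1 = e.2) := by tauto
  have a2 : ¬ (g.2 = e.1 ∨ g.2 = e.2) := by tauto
  have a3 : ¬ (e.1 = g.1 ∨ e.1 = g.2) := by
    rintro (h | h)
    · exact h1.1 h.symm
    · exact h1.2 h.symm
  have a4 : ¬ (e.2 = g.1 ∨ e.2 = g.2) := by
    rintro (h | h)
    · exact h2.1 h.symm
    · exact h2.2 h.symm
  rw [if_neg a1, if_neg a2, if_neg a3, if_neg a4]
  by_cases hz : z = e.1 ∨ z = e.2
  · have : ¬ (z = g.1 ∨ z = g.2) := by
      rcases hz with rfl | rfl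
      · exact a3
      · exact a4
    rw [if_pos hz, if_neg this, if_pos hz]
    ring
  · by_cases hz' : z = g.1 ∨ z = g.2
    · rw [if_pos hz', if_neg hz, if_pos hz']
      ring
    · rw [if_neg hz', if_neg hz, if_neg hz, if_neg hz']

theorem trace_vstep (q : ℤ) (L L' : List (Fin (n + 1) × Fin (n + 1))) (h : Eqv L L')
    (X : Fin (n + 1) → ℤ) : L.foldl (vstep q) X = L'.foldl (vstep q) X :=
  trace (vstep q) (fun X e g => vstep_comm q X e g) L L' h X

theorem Eqv.symm' {L L' : List (Fin (n + 1) × Fin (n + 1))} (h : Eqv L L') : Eqv L' L :=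
  fun x => (h x).symm

theorem Eqv.trans' {L L' L'' : List (Fin (n + 1) × Fin (n + 1))} (h : Eqv L L')
    (h' : Eqv L' L'') : Eqv L L'' :=
  fun x => (h x).trans (h' x)

theorem Eqv.append {A A' B B' : List (Fin (n + 1) × Fin (n + 1))} (h : Eqv A A')
    (h' : Eqv B B') : Eqv (A ++ B) (A' ++ B') := by
  intro x
  rw [loc_append, loc_append, h x, h' x]

theorem Eqv.refl' (A : List (Fin (n + 1) × Fin (n + 1))) : Eqv A A := fun _ => rfl

/-- move a crossing over a block of crossings of other wires -/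
theorem eqv_move {e : Fin (n + 1) × Fin (n + 1)} {Q : List (Fin (n + 1) × Fin (n + 1))}
    (hQ : ∀ g ∈ Q, ¬ (g.1 = e.1 ∨ g.2 = e.1) ∧ ¬ (g.1 = e.2 ∨ g.2 = e.2)) :
    Eqv (e :: Q) (Q ++ [e]) := by
  intro x
  rw [loc_append]
  by_cases hx : e.1 = x ∨ e.2 = x
  · have : loc x Q = [] := by
      rw [List.eq_nil_iff_forall_not_mem]
      intro g hg
      obtain ⟨hgQ, hg'⟩ := mem_loc.1 hg
      rcases hx with rfl | rfl
      · exact (hQ g hgQ).1 hg'
      · exact (hQ g hgQ).2 hg'
    rw [loc_cons_of hx, loc_cons_of hx, this]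
    rfl
  · rw [loc_cons_not hx, loc_cons_not hx]
    simp [loc]

theorem split_unique {α : Type*} {e : α} {P S P' S' : List α} (h : P ++ e :: S = P' ++ e :: S')
    (h1 : e ∉ P) (h2 : e ∉ S) : P = P' ∧ S = S' := by
  rw [List.append_eq_append_iff] at h
  rcases h with ⟨T, hT1, hT2⟩ | ⟨T, hT1, hT2⟩
  · rcases T with _ | ⟨t, T⟩
    · simp at hT1 hT2
      exact ⟨hT1.symm, hT2⟩
    · rw [List.cons_append, List.cons.injEq] at hT2
      exfalso
      apply h2
      rw [hT2.2]
      simp
  · rcases T with _ | ⟨t, T⟩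
    · simp at hT1 hT2
      exact ⟨hT1, hT2.symm⟩
    · rw [List.cons_append, List.cons.injEq] at hT2
      exfalso
      apply h1
      rw [hT1, ← hT2.1]
      simp

theorem Val.nodup' {a c : Fin (n + 1)} {L : List (Fin (n + 1) × Fin (n + 1))} (h : Val a c L)
    {P S : List (Fin (n + 1) × Fin (n + 1))} {e : Fin (n + 1) × Fin (n + 1)}
    (hL : L = P ++ e :: S) : e ∉ P ∧ e ∉ S := by
  refine ⟨(h P e S hL).2.2.2.1, fun hS => ?_⟩
  obtain ⟨S1, S2, hS12⟩ := List.append_of_mem hS
  have := (h (P ++ e :: S1) e S2 (by rw [hL, hS12]; simp)).2.2.2.1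
  exact this (by simp)

/-- `Val` only depends on the local orders. -/
theorem val_eqv {a c : Fin (n + 1)} {L L' : List (Fin (n + 1) × Fin (n + 1))} (h : Val a c L)
    (hE : Eqv L L') : Val a c L' := by
  intro P' e S' hL'
  have hmem : e ∈ L := by
    have : e ∈ loc e.1 L' := mem_loc.2 ⟨by rw [hL']; simp, Or.inl rfl⟩
    rw [← hE e.1] at this
    exact (mem_loc.1 this).1
  obtain ⟨P, S, hL⟩ := List.append_of_mem hmem
  obtain ⟨hP, hS⟩ := Val.nodup' h hL
  have key : ∀ x, (e.1 = x ∨ e.2 = x) → loc x P = loc x P' := by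
    intro x hx
    have h1 := hE x
    rw [hL, hL', loc_append, loc_append, loc_cons_of hx, loc_cons_of hx] at h1
    exact (split_unique h1 (fun hh => hP (mem_loc.1 hh).1) (fun hh => hS (mem_loc.1 hh).1)).1
  have mem : ∀ g : Fin (n + 1) × Fin (n + 1), (g.1 = e.1 ∨ g.2 = e.1 ∨ g.1 = e.2 ∨ g.2 = e.2) →
      (g ∈ P' ↔ g ∈ P) := by
    intro g hg
    have : ∃ x, (e.1 = x ∨ e.2 = x) ∧ (g.1 = x ∨ g.2 = x) := by
      rcases hg with h | h | h | h
      · exact ⟨e.1, Or.inl rfl, Or.inl h⟩
      · exact ⟨e.1, Or.inl rfl, Or.inr h⟩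
      · exact ⟨e.2, Or.inr rfl, Or.inl h⟩
      · exact ⟨e.2, Or.inr rfl, Or.inr h⟩
    obtain ⟨x, hx, hgx⟩ := this
    have h1 := key x hx
    constructor
    · intro hh
      have : g ∈ loc x P' := mem_loc.2 ⟨hh, hgx⟩
      rw [← h1] at this
      exact (mem_loc.1 this).1
    · intro hh
      have : g ∈ loc x P := mem_loc.2 ⟨hh, hgx⟩
      rw [h1] at this
      exact (mem_loc.1 this).1
  obtain ⟨h1, h2, h3, h4, h5, h6, h7⟩ := h P e S hL
  refine ⟨h1, h2, h3, ?_, ?_, ?_, ?_⟩
  · rw [mem e (Or.inl rfl)]; exact h4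
  · intro z hz hz'
    rw [mem (e.2, z) (by simp), mem (e.1, z) (by simp)]
    exact h5 z hz hz'
  · intro z hz hz'
    rw [mem (z, e.1) (by simp), mem (z, e.2) (by simp)]
    exact h6 z hz hz'
  · intro z hz hz'
    rw [mem (e.1, z) (by simp), mem (z, e.2) (by simp)]
    exact h7 z hz hz'

theorem split_cases {α : Type*} {e : α} {P L0 P' S' : List α} (h : P ++ L0 = P' ++ e :: S') :
    (∃ T, P = P' ++ e :: T) ∨ (∃ T, P' = P ++ T ∧ L0 = T ++ e :: S') := by
  rw [List.append_eq_append_iff] at h
  rcases h with ⟨T, hT1, hT2⟩ | ⟨T, hT1, hT2⟩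
  · exact Or.inr ⟨T, hT1, hT2⟩
  · rcases T with _ | ⟨t, T⟩
    · refine Or.inr ⟨[], ?_, ?_⟩
      · simp at hT1 ⊢
        exact hT1.symm
      · simp at hT2 ⊢
        exact hT2.symm
    · rw [List.cons_append, List.cons.injEq] at hT2
      refine Or.inl ⟨T, ?_⟩
      rw [hT1, ← hT2.1]

/-- A triangle flip preserves validity. -/
theorem val_flip {a b c : Fin (n + 1)} (hab : a < b) (hbc : b < c)
    {P S : List (Fin (n + 1) × Fin (n + 1))}
    (h : Val a c (P ++ (a, b) :: (a, c) :: (b, c) :: S)) :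
    Val a c (P ++ (b, c) :: (a, c) :: (a, b) :: S) := by
  have n1 := Val.nodup' h (P := P) (S := (a, c) :: (b, c) :: S) (e := (a, b)) rfl
  have n2 := Val.nodup' h (P := P ++ [(a, b)]) (S := (b, c) :: S) (e := (a, c)) (by simp)
  have n3 := Val.nodup' h (P := P ++ [(a, b), (a, c)]) (S := S) (e := (b, c)) (by simp)
  have v1 := h P (a, b) ((a, c) :: (b, c) :: S) rfl
  have v2 := h (P ++ [(a, b)]) (a, c) ((b, c) :: S) (by simp)
  have v3 := h (P ++ [(a, b), (a, c)]) (b, c) S (by simp)
  have hac := hab.trans hbc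
  have m1 : (a, b) ∉ P := n1.1
  have m2 : (a, c) ∉ P := fun hh => n2.1 (by simp [hh])
  have m3 : (b, c) ∉ P := fun hh => n3.1 (by simp [hh])
  intro P' e S' hL'
  rcases split_cases hL' with ⟨T, hT⟩ | ⟨T, hT1, hT2⟩
  · exact h P' e (T ++ (a, b) :: (a, c) :: (b, c) :: S) (by rw [hT]; simp)
  · rcases T with _ | ⟨t1, T⟩
    · simp only [List.nil_append, List.cons.injEq] at hT2
      obtain ⟨he, -⟩ := hT2
      subst he
      rw [List.append_nil] at hT1
      subst hT1
      obtain ⟨w1, w2, w3, w4, w5, w6, w7⟩ := v3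
      refine ⟨w1, w2, w3, m3, ?_, ?_, ?_⟩
      · intro z hz hz'
        exact absurd (lt_of_lt_of_le hz hz') (lt_irrefl _)
      · intro z hz hz'
        by_cases hza : z = a
        · subst hza
          exact iff_of_false m1 m2
        · have := w6 z hz hz'
          simpa [hza] using this
      · intro z hz hz'
        have := w7 z hz hz'
        have hbz : b ≠ a := ne_of_gt hab
        have hza : z ≠ a := ne_of_gt (hab.trans hz)
        simpa [hbz, hza] using this
    · rcases T with _ | ⟨t2, T⟩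
      · simp only [List.cons_append, List.nil_append, List.cons.injEq] at hT2
        obtain ⟨ht1, he, -⟩ := hT2
        subst ht1
        subst he
        subst hT1
        obtain ⟨w1, w2, w3, w4, w5, w6, w7⟩ := v2
        refine ⟨w1, w2, w3, ?_, ?_, ?_, ?_⟩
        · have : a ≠ b := ne_of_lt hab
          simp [m2, this]
        · intro z hz hz'
          exact absurd (lt_of_lt_of_le hz hz') (lt_irrefl _)
        · intro z hz hz'
          exact absurd (lt_of_lt_of_le hz' hz) (lt_irrefl _)
        · intro z hz hz'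
          have hne : a ≠ b := ne_of_lt hab
          by_cases hzb : z = b
          · subst hzb
            simp [m1, hne]
          · have := w7 z hz hz'
            have hza : z ≠ a := ne_of_gt hz
            simpa [hzb, hne, hza] using this
      · rcases T with _ | ⟨t3, T⟩
        · simp only [List.cons_append, List.nil_append, List.cons.injEq] at hT2
          obtain ⟨ht1, ht2, he, -⟩ := hT2
          subst ht1
          subst ht2
          subst he
          subst hT1
          obtain ⟨w1, w2, w3, w4, w5, w6, w7⟩ := v1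
          have hne : a ≠ b := ne_of_lt hab
          refine ⟨w1, w2, w3, ?_, ?_, ?_, ?_⟩
          · have hne2 : b ≠ c := ne_of_lt hbc
            simp [m1, hne, hne2]
          · intro z hz hz'
            by_cases hzc : z = c
            · subst hzc
              simp
            · have := w5 z hz hz'
              simpa [hzc, hne, hne.symm] using this
          · intro z hz hz'
            exact absurd (lt_of_lt_of_le hz' hz) (lt_irrefl _)
          · intro z hz hz'
            have hzc : z ≠ c := ne_of_lt (hz'.trans hbc)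
            have hne2 : b ≠ c := ne_of_lt hbc
            have := w7 z hz hz'
            simpa [hzc, hne, hne2] using this
        · simp only [List.cons_append, List.cons.injEq] at hT2
          obtain ⟨ht1, ht2, ht3, hS⟩ := hT2
          subst ht1
          subst ht2
          subst ht3
          have hm : ∀ g, g ∈ P' ↔ g ∈ P ++ (a, b) :: (a, c) :: (b, c) :: T := by
            intro g
            rw [hT1]
            simp only [List.mem_append, List.mem_cons]
            tauto
          have := h (P ++ (a, b) :: (a, c) :: (b, c) :: T) e S' (by rw [hS]; simp)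
          simpa only [← hm] using this

end Pool.Agent.X274.BS
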